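import Mathlib

set_option autoImplicit false

/-!
# Online metric transportation with two sites: the optimal randomized ratio is exactly 2

For two sites with arbitrary capacities one algorithm, which looks only at the current request,
is 2-competitive against an oblivious adversary, and no algorithm is better (Q2 for `m = 2`).
-/

namespace Pool.Agent.Results.MP_a4c1f4_lc.TwoSitesTransportation

/-- Expected cost of a randomized online algorithm for the transportation problem with the two
sites `s₁`, `s₂` on the list of the requests still to come, when the free capacities are `c₁`,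
`c₂`. If both sites have free capacity, the request `r` is served from `s₁` with the probability
`A h r` and from `s₂` with the probability `1 - A h r`; here `h` is the history (the earlier
requests and the sites that served them, the latest first, `true` for `s₁`). A request that finds
a full site is served from the other one. -/
noncomputable def expCost {N : Type} [MetricSpace N] (s₁ s₂ : N)
    (A : List (N × Bool) → N → ℝ) : ℕ → ℕ → List (N × Bool) → List N → ℝ
  | _, _, _, [] => 0
  | 0, c₂, h, r :: rs => dist s₂ r + expCost s₁ s₂ A 0 (c₂ - 1) ((r, false) :: h) rs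
  | c₁ + 1, 0, h, r :: rs => dist s₁ r + expCost s₁ s₂ A c₁ 0 ((r, true) :: h) rs
  | c₁ + 1, c₂ + 1, h, r :: rs =>
      A h r * (dist s₁ r + expCost s₁ s₂ A c₁ (c₂ + 1) ((r, true) :: h) rs) +
      (1 - A h r) * (dist s₂ r + expCost s₁ s₂ A (c₁ + 1) c₂ ((r, false) :: h) rs)

/-- Cost of the offline assignment `σ` of the requests (`true` means: served from `s₁`). -/
noncomputable def offCost {N : Type} [MetricSpace N] (s₁ s₂ : N) : List Bool → List N → ℝ
  | true :: σ, r :: rs => dist s₁ r + offCost s₁ s₂ σ rs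
  | false :: σ, r :: rs => dist s₂ r + offCost s₁ s₂ σ rs
  | _, _ => 0

/-- The algorithm `A` is `c`-competitive for the two sites with the capacities `c₁`, `c₂`: its
expected cost is at most `c` times the cost of every feasible offline assignment (so at most
`c · OPT`), for every sequence of at most `c₁ + c₂` requests. -/
def Competitive {N : Type} [MetricSpace N] (s₁ s₂ : N) (c₁ c₂ : ℕ) (c : ℝ)
    (A : List (N × Bool) → N → ℝ) : Prop :=
  (∀ h r, 0 ≤ A h r ∧ A h r ≤ 1) ∧
  ∀ (rs : List N) (σ : List Bool), rs.length ≤ c₁ + c₂ → σ.length = rs.length →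
    σ.count true ≤ c₁ → σ.count false ≤ c₂ →
    expCost s₁ s₂ A c₁ c₂ [] rs ≤ c * offCost s₁ s₂ σ rs

/-! ### The probabilities -/

theorem exists_prob (a b D : ℝ) (ha : 0 ≤ a) (hb : 0 ≤ b) (hD : 0 ≤ D)
    (h1 : a ≤ D + b) (h2 : b ≤ D + a) (h3 : D ≤ a + b) :
    ∃ p : ℝ, 0 ≤ p ∧ p ≤ 1 ∧ p * (D - b + a) ≤ b ∧ (1 - p) * (D + b - a) ≤ a := by
  obtain ⟨u, hu⟩ : ∃ u, u = D + b - a := ⟨_, rfl⟩
  obtain ⟨w, hw⟩ : ∃ w, w = D - b + a := ⟨_, rfl⟩
  rw [← hu, ← hw]
  have hu0 : 0 ≤ u := by rw [hu]; linarith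
  have hw0 : 0 ≤ w := by rw [hw]; linarith
  have haw : 0 ≤ a * w := mul_nonneg ha hw0
  have hbu : 0 ≤ b * u := mul_nonneg hb hu0
  obtain ⟨Q, hQ⟩ : ∃ Q, Q = a * w + b * u := ⟨_, rfl⟩
  have hQ0 : 0 ≤ Q := by rw [hQ]; linarith
  have hQuw : u * w ≤ Q := by
    rw [hQ, hu, hw]
    nlinarith [sq_nonneg (b - a), mul_nonneg hD (sub_nonneg.2 h3)]
  rcases hQ0.eq_or_lt with h0 | hpos
  · have e1 : (a + b) * D + (b - a) ^ 2 = 0 := by
      have : Q = (a + b) * D + (b - a) ^ 2 := by rw [hQ, hu, hw]; ring
      linarith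
    have e2 : 0 ≤ (a + b) * D := mul_nonneg (by linarith) hD
    have e3 : (b - a) ^ 2 = 0 := by nlinarith [sq_nonneg (b - a)]
    have e4 : b = a := by
      have := pow_eq_zero_iff (two_ne_zero) |>.1 e3
      linarith
    have e5 : D * D ≤ 0 := by nlinarith
    have e6 : D = 0 := mul_self_eq_zero.1 (le_antisymm e5 (mul_self_nonneg D))
    refine ⟨0, le_refl _, by norm_num, ?_, ?_⟩
    · linarith
    · rw [hu, e4, e6]; linarith
  · obtain ⟨p, hp⟩ : ∃ p, p = b * u / Q := ⟨_, rfl⟩
    have hpQ : p * Q = b * u := by rw [hp]; field_simp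
    have hp0 : 0 ≤ p := by rw [hp]; positivity
    have hp1 : p ≤ 1 := by
      rw [hp, div_le_one hpos, hQ]; linarith
    have hqQ : (1 - p) * Q = a * w := by
      have : (1 - p) * Q = Q - p * Q := by ring
      rw [this, hpQ, hQ]; ring
    have k1 : p * w ≤ b := by
      by_contra hcon
      push Not at hcon
      have : b * Q < p * w * Q := mul_lt_mul_of_pos_right hcon hpos
      have h5 : p * w * Q = b * (u * w) := by
        have : p * w * Q = (p * Q) * w := by ring
        rw [this, hpQ]; ring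
      rw [h5] at this
      nlinarith [mul_le_mul_of_nonneg_left hQuw hb]
    have k2 : (1 - p) * u ≤ a := by
      by_contra hcon
      push Not at hcon
      have : a * Q < (1 - p) * u * Q := mul_lt_mul_of_pos_right hcon hpos
      have h5 : (1 - p) * u * Q = a * (u * w) := by
        have : (1 - p) * u * Q = ((1 - p) * Q) * u := by ring
        rw [this, hqQ]; ring
      rw [h5] at this
      nlinarith [mul_le_mul_of_nonneg_left hQuw ha]
    exact ⟨p, hp0, hp1, k1, k2⟩

section

variable {N : Type} [MetricSpace N] (s₁ s₂ : N)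

theorem offCost_nonneg (σ : List Bool) (rs : List N) : 0 ≤ offCost s₁ s₂ σ rs := by
  induction rs generalizing σ with
  | nil => cases σ with
    | nil => simp [offCost]
    | cons b σ => cases b <;> simp [offCost]
  | cons r rs ih => cases σ with
    | nil => simp [offCost]
    | cons b σ =>
      cases b
      · simp only [offCost]; exact add_nonneg dist_nonneg (ih σ)
      · simp only [offCost]; exact add_nonneg dist_nonneg (ih σ)

theorem expCost_nonneg (A : List (N × Bool) → N → ℝ) (hA : ∀ h r, 0 ≤ A h r ∧ A h r ≤ 1)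
    (rs : List N) : ∀ (c₁ c₂ : ℕ) (h : List (N × Bool)), 0 ≤ expCost s₁ s₂ A c₁ c₂ h rs := by
  induction rs with
  | nil => intro c₁ c₂ h; simp [expCost]
  | cons r rs ih =>
    intro c₁ c₂ h
    rcases c₁ with _ | c₁
    · simp only [expCost]; exact add_nonneg dist_nonneg (ih _ _ _)
    · rcases c₂ with _ | c₂
      · simp only [expCost]; exact add_nonneg dist_nonneg (ih _ _ _)
      · simp only [expCost]
        have h1 := hA h r
        exact add_nonneg (mul_nonneg h1.1 (add_nonneg dist_nonneg (ih _ _ _)))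
          (mul_nonneg (by linarith [h1.2]) (add_nonneg dist_nonneg (ih _ _ _)))

/-- **Potential argument.** -/
theorem main (q : N → ℝ) (hq : ∀ r, 0 ≤ q r ∧ q r ≤ 1 ∧
      q r * (dist s₁ s₂ - dist s₂ r + dist s₁ r) ≤ dist s₂ r ∧
      (1 - q r) * (dist s₁ s₂ + dist s₂ r - dist s₁ r) ≤ dist s₁ r) (rs : List N) :
    ∀ (c₁ c₂ d₁ d₂ : ℕ) (h : List (N × Bool)) (σ : List Bool), c₁ + c₂ = d₁ + d₂ →
      rs.length ≤ c₁ + c₂ → σ.length = rs.length → σ.count true ≤ d₁ → σ.count false ≤ d₂ →
      expCost s₁ s₂ (fun _ r => q r) c₁ c₂ h rs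
        ≤ 2 * offCost s₁ s₂ σ rs + dist s₁ s₂ * |(c₁ : ℝ) - d₁| := by
  have hD : 0 ≤ dist s₁ s₂ := dist_nonneg
  induction rs with
  | nil =>
    intro c₁ c₂ d₁ d₂ h σ _ _ hσ _ _
    have : σ = [] := List.length_eq_zero_iff.1 (by simpa using hσ)
    subst this
    simp only [expCost, offCost, mul_zero, zero_add]
    positivity
  | cons r rs ih =>
    intro c₁ c₂ d₁ d₂ h σ hcd hlen hσ ht hf
    have ha : 0 ≤ dist s₁ r := dist_nonneg
    have hb : 0 ≤ dist s₂ r := dist_nonneg
    have t1 : dist s₁ r ≤ dist s₁ s₂ + dist s₂ r := dist_triangle _ _ _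
    have t2 : dist s₂ r ≤ dist s₁ s₂ + dist s₁ r := by
      rw [dist_comm s₁ s₂]; exact dist_triangle _ _ _
    obtain ⟨hq0, hq1, hqw, hqu⟩ := hq r
    rcases σ with _ | ⟨b, σ⟩
    · simp at hσ
    have hσ' : σ.length = rs.length := by simpa using hσ
    have hlen' : rs.length + 1 ≤ c₁ + c₂ := by simpa using hlen
    rcases b with _ | _
    · -- the offline algorithm uses `s₂`
      have ht' : σ.count true ≤ d₁ := by simpa using ht
      have hf' : σ.count false + 1 ≤ d₂ := by simpa using hf
      obtain ⟨e, rfl⟩ : ∃ e, d₂ = e + 1 := ⟨d₂ - 1, by omega⟩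
      simp only [offCost]
      rcases c₁ with _ | c₁
      · -- forced to `s₂`
        obtain ⟨k, rfl⟩ : ∃ k, c₂ = k + 1 := ⟨c₂ - 1, by omega⟩
        simp only [expCost, Nat.add_sub_cancel]
        have := ih 0 k d₁ e ((r, false) :: h) σ (by omega) (by omega) hσ' ht' (by omega)
        linarith
      · rcases c₂ with _ | c₂
        · -- forced to `s₁`
          simp only [expCost]
          have := ih c₁ 0 d₁ e ((r, true) :: h) σ (by omega) (by omega) hσ' ht' (by omega)
          have e1 : |((c₁ : ℕ) : ℝ) - d₁| = e := by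
            have : (c₁ : ℝ) = d₁ + e := by
              have : c₁ = d₁ + e := by omega
              exact_mod_cast this
            rw [this, add_sub_cancel_left]; simp
          have e2 : |((c₁ + 1 : ℕ) : ℝ) - d₁| = e + 1 := by
            have : ((c₁ + 1 : ℕ) : ℝ) = d₁ + (e + 1) := by
              have : c₁ + 1 = d₁ + (e + 1) := by omega
              exact_mod_cast this
            rw [this, add_sub_cancel_left]
            exact abs_of_nonneg (by positivity)
          rw [e1] at this
          rw [e2]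
          nlinarith
        · simp only [expCost]
          have i1 := ih c₁ (c₂ + 1) d₁ e ((r, true) :: h) σ (by omega) (by omega) hσ' ht'
            (by omega)
          have i2 := ih (c₁ + 1) c₂ d₁ e ((r, false) :: h) σ (by omega) (by omega) hσ' ht'
            (by omega)
          have e1 : |((c₁ : ℕ) : ℝ) - d₁| ≤ |((c₁ + 1 : ℕ) : ℝ) - d₁| + 1 := by
            have : ((c₁ : ℕ) : ℝ) - d₁ = (((c₁ + 1 : ℕ) : ℝ) - d₁) + (-1) := by push_cast; ring
            rw [this]
            refine (abs_add_le _ _).trans ?_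
            simp
          have e3 := mul_le_mul_of_nonneg_left e1 hD
          have j1 := mul_le_mul_of_nonneg_left (add_le_add_right i1 (dist s₁ r)) hq0
          have j2 := mul_le_mul_of_nonneg_left (add_le_add_right i2 (dist s₂ r))
            (by linarith : 0 ≤ 1 - q r)
          have j3 := mul_le_mul_of_nonneg_left e3 hq0
          nlinarith
    · -- the offline algorithm uses `s₁`
      have ht' : σ.count true + 1 ≤ d₁ := by simpa using ht
      have hf' : σ.count false ≤ d₂ := by simpa using hf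
      obtain ⟨e, rfl⟩ : ∃ e, d₁ = e + 1 := ⟨d₁ - 1, by omega⟩
      simp only [offCost]
      rcases c₁ with _ | c₁
      · -- forced to `s₂`
        obtain ⟨k, rfl⟩ : ∃ k, c₂ = k + 1 := ⟨c₂ - 1, by omega⟩
        simp only [expCost, Nat.add_sub_cancel]
        have := ih 0 k e d₂ ((r, false) :: h) σ (by omega) (by omega) hσ' (by omega) hf'
        have e1 : |((0 : ℕ) : ℝ) - (e : ℕ)| = e := by simp
        have e2 : |((0 : ℕ) : ℝ) - ((e + 1 : ℕ) : ℝ)| = e + 1 := by
          push_cast
          rw [zero_sub, abs_neg]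
          exact abs_of_nonneg (by positivity)
        rw [e1] at this
        rw [e2]
        nlinarith
      · rcases c₂ with _ | c₂
        · -- forced to `s₁`
          simp only [expCost]
          have := ih c₁ 0 e d₂ ((r, true) :: h) σ (by omega) (by omega) hσ' (by omega) hf'
          have e1 : ((c₁ + 1 : ℕ) : ℝ) - ((e + 1 : ℕ) : ℝ) = (c₁ : ℝ) - e := by push_cast; ring
          rw [e1]
          linarith
        · simp only [expCost]
          have i1 := ih c₁ (c₂ + 1) e d₂ ((r, true) :: h) σ (by omega) (by omega) hσ' (by omega)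
            hf'
          have i2 := ih (c₁ + 1) c₂ e d₂ ((r, false) :: h) σ (by omega) (by omega) hσ' (by omega)
            hf'
          have e0 : ((c₁ + 1 : ℕ) : ℝ) - ((e + 1 : ℕ) : ℝ) = (c₁ : ℝ) - e := by push_cast; ring
          rw [e0]
          have e1 : |((c₁ + 1 : ℕ) : ℝ) - e| ≤ |(c₁ : ℝ) - e| + 1 := by
            have : ((c₁ + 1 : ℕ) : ℝ) - e = ((c₁ : ℝ) - e) + 1 := by push_cast; ring
            rw [this]
            refine (abs_add_le _ _).trans ?_
            simp
          have e3 := mul_le_mul_of_nonneg_left e1 hD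
          have hq2 : 0 ≤ 1 - q r := by linarith
          have j1 := mul_le_mul_of_nonneg_left (add_le_add_right i1 (dist s₁ r)) hq0
          have j2 := mul_le_mul_of_nonneg_left (add_le_add_right i2 (dist s₂ r)) hq2
          have j3 := mul_le_mul_of_nonneg_left e3 hq2
          nlinarith

end

/-! ### Lower bound -/

theorem low_one (A : List (ℝ × Bool) → ℝ → ℝ) (hA : ∀ h r, 0 ≤ A h r ∧ A h r ≤ 1) (c₁ : ℕ) :
    ∀ (c₂ : ℕ) (h : List (ℝ × Bool)),
      2 ≤ expCost (-1 : ℝ) 1 A c₁ c₂ h (List.replicate (c₁ + 1) (-1)) := by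
  have hd1 : dist (-1 : ℝ) (-1) = 0 := dist_self _
  have hd2 : dist (1 : ℝ) (-1) = 2 := by rw [Real.dist_eq]; norm_num
  induction c₁ with
  | zero =>
    intro c₂ h
    rw [List.replicate_succ]
    simp only [expCost, hd2]
    linarith [expCost_nonneg (-1 : ℝ) 1 A hA (List.replicate 0 (-1)) 0 (c₂ - 1)
      (((-1 : ℝ), false) :: h)]
  | succ c₁ ih =>
    intro c₂ h
    rw [List.replicate_succ]
    rcases c₂ with _ | c₂
    · simp only [expCost, hd1]
      linarith [ih 0 (((-1 : ℝ), true) :: h)]
    · simp only [expCost, hd1, hd2]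
      have h1 := ih (c₂ + 1) (((-1 : ℝ), true) :: h)
      have h2 := expCost_nonneg (-1 : ℝ) 1 A hA (List.replicate (c₁ + 1) (-1)) (c₁ + 1) c₂
        (((-1 : ℝ), false) :: h)
      have h3 := hA h (-1)
      nlinarith [mul_le_mul_of_nonneg_left h1 h3.1,
        mul_nonneg (by linarith [h3.2] : 0 ≤ 1 - A h (-1)) h2]

theorem low_two (A : List (ℝ × Bool) → ℝ → ℝ) (hA : ∀ h r, 0 ≤ A h r ∧ A h r ≤ 1) (c₂ : ℕ) :
    ∀ (c₁ : ℕ) (h : List (ℝ × Bool)),
      2 ≤ expCost (-1 : ℝ) 1 A (c₁ + 1) c₂ h (List.replicate (c₂ + 1) 1) := by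
  have hd1 : dist (1 : ℝ) 1 = 0 := dist_self _
  have hd2 : dist (-1 : ℝ) 1 = 2 := by rw [Real.dist_eq]; norm_num
  induction c₂ with
  | zero =>
    intro c₁ h
    rw [List.replicate_succ]
    simp only [expCost, hd2]
    linarith [expCost_nonneg (-1 : ℝ) 1 A hA (List.replicate 0 1) c₁ 0 (((1 : ℝ), true) :: h)]
  | succ c₂ ih =>
    intro c₁ h
    rw [List.replicate_succ]
    simp only [expCost, hd1, hd2]
    have h1 := ih c₁ (((1 : ℝ), false) :: h)
    have h2 := expCost_nonneg (-1 : ℝ) 1 A hA (List.replicate (c₂ + 1) 1) c₁ (c₂ + 1)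
      (((1 : ℝ), true) :: h)
    have h3 := hA h 1
    have h4 : 0 ≤ 1 - A h 1 := by linarith [h3.2]
    nlinarith [mul_le_mul_of_nonneg_left h1 h4, mul_nonneg h3.1 h2]

theorem off_one (n : ℕ) :
    offCost (-1 : ℝ) 1 (List.replicate n true) (List.replicate n (-1)) = 0 := by
  induction n with
  | zero => simp [offCost]
  | succ n ih => rw [List.replicate_succ, List.replicate_succ]; simp only [offCost, ih]; simp

theorem off_two (n : ℕ) :
    offCost (-1 : ℝ) 1 (List.replicate n false) (List.replicate n 1) = 0 := by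
  induction n with
  | zero => simp [offCost]
  | succ n ih => rw [List.replicate_succ, List.replicate_succ]; simp only [offCost, ih]; simp

/-- **Theorem.** (1) For every metric space and any two sites there are probabilities `q r`, which
depend only on the request `r`, such that serving each request `r` from `s₁` with the probability
`q r` (as long as both sites have free capacity) is 2-competitive, for all capacities. (2) For all
capacities `c₁, c₂ ≥ 1` the optimal randomized competitive ratio of the online transportation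
problem with two sites of these capacities is exactly `2`. -/
theorem result :
    (∀ (N : Type) [MetricSpace N] (s₁ s₂ : N), ∃ q : N → ℝ, ∀ c₁ c₂ : ℕ,
      Competitive s₁ s₂ c₁ c₂ 2 (fun _ r => q r)) ∧
    ∀ c₁ c₂ : ℕ, 1 ≤ c₁ → 1 ≤ c₂ →
      IsLeast {c : ℝ | ∀ (N : Type) [MetricSpace N] (s₁ s₂ : N),
        ∃ A : List (N × Bool) → N → ℝ, Competitive s₁ s₂ c₁ c₂ c A} 2 := by
  have upper : ∀ (N : Type) [MetricSpace N] (s₁ s₂ : N), ∃ q : N → ℝ, ∀ c₁ c₂ : ℕ,
      Competitive s₁ s₂ c₁ c₂ 2 (fun _ r => q r) := by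
    intro N _ s₁ s₂
    have hex : ∀ r : N, ∃ p : ℝ, 0 ≤ p ∧ p ≤ 1 ∧
        p * (dist s₁ s₂ - dist s₂ r + dist s₁ r) ≤ dist s₂ r ∧
        (1 - p) * (dist s₁ s₂ + dist s₂ r - dist s₁ r) ≤ dist s₁ r := fun r =>
      exists_prob (dist s₁ r) (dist s₂ r) (dist s₁ s₂) dist_nonneg dist_nonneg dist_nonneg
        (dist_triangle _ _ _) (by rw [dist_comm s₁ s₂]; exact dist_triangle _ _ _)
        (by rw [dist_comm s₂ r]; exact dist_triangle _ _ _)
    choose q hq using hex
    refine ⟨q, fun c₁ c₂ => ⟨fun _ r => ⟨(hq r).1, (hq r).2.1⟩, ?_⟩⟩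
    intro rs σ h1 h2 h3 h4
    have := main s₁ s₂ q hq rs c₁ c₂ c₁ c₂ [] σ rfl h1 h2 h3 h4
    simpa using this
  refine ⟨upper, fun c₁ c₂ h1 h2 => ⟨?_, ?_⟩⟩
  · intro N _ s₁ s₂
    obtain ⟨q, hq⟩ := upper N s₁ s₂
    exact ⟨_, hq c₁ c₂⟩
  · intro c hc
    obtain ⟨A, hA, h⟩ := hc ℝ (-1) 1
    obtain ⟨k₁, rfl⟩ : ∃ k, c₁ = k + 1 := ⟨c₁ - 1, by omega⟩
    obtain ⟨k₂, rfl⟩ : ∃ k, c₂ = k + 1 := ⟨c₂ - 1, by omega⟩
    have a1 := h (0 :: List.replicate (k₁ + 1) (-1)) (false :: List.replicate (k₁ + 1) true)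
      (by simp only [List.length_cons, List.length_replicate]; omega)
      (by simp only [List.length_cons, List.length_replicate])
      (by simp [List.count_replicate]) (by simp [List.count_replicate])
    have a2 := h (0 :: List.replicate (k₂ + 1) 1) (true :: List.replicate (k₂ + 1) false)
      (by simp only [List.length_cons, List.length_replicate]; omega)
      (by simp only [List.length_cons, List.length_replicate])
      (by simp [List.count_replicate]) (by simp [List.count_replicate])
    have hd1 : dist (-1 : ℝ) 0 = 1 := by rw [Real.dist_eq]; norm_num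
    have hd2 : dist (1 : ℝ) 0 = 1 := by rw [Real.dist_eq]; norm_num
    simp only [expCost, offCost, off_one, off_two, hd1, hd2] at a1 a2
    have b1 := low_one A hA k₁ (k₂ + 1) [((0 : ℝ), true)]
    have b2 := expCost_nonneg (-1 : ℝ) 1 A hA (List.replicate (k₁ + 1) (-1)) (k₁ + 1) k₂
      [((0 : ℝ), false)]
    have b3 := low_two A hA k₂ k₁ [((0 : ℝ), false)]
    have b4 := expCost_nonneg (-1 : ℝ) 1 A hA (List.replicate (k₂ + 1) 1) k₁ (k₂ + 1)
      [((0 : ℝ), true)]
    have h3 := hA [] 0
    have h4 : 0 ≤ 1 - A [] 0 := by linarith [h3.2]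
    nlinarith [mul_le_mul_of_nonneg_left b1 h3.1, mul_nonneg h4 b2,
      mul_le_mul_of_nonneg_left b3 h4, mul_nonneg h3.1 b4]

end Pool.Agent.Results.MP_a4c1f4_lc.TwoSitesTransportation
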